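import Mathlib

/-!
# Project LG: numbers for one stage
-/

set_option autoImplicit false

namespace Pool.Agent.W503.LG

open Filter

theorem poly_lt (p : Polynomial ℕ) : ∃ m₀ : ℕ, ∀ m ≥ m₀, p.eval m < 2 ^ m := by
  have key : Tendsto (fun m : ℕ => ((p.eval m : ℕ) : ℝ) / 2 ^ m) atTop (nhds 0) := by
    induction p using Polynomial.induction_on' with
    | add p q hp hq =>
      have h := hp.add hq
      rw [add_zero] at h
      refine h.congr fun m => ?_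
      rw [Polynomial.eval_add, Nat.cast_add, add_div]
    | monomial n a =>
      have h := (tendsto_pow_const_div_const_pow_of_one_lt n (r := (2 : ℝ)) (by norm_num)).const_mul
        (a : ℝ)
      rw [mul_zero] at h
      refine h.congr fun m => ?_
      rw [Polynomial.eval_monomial, Nat.cast_mul, Nat.cast_pow, mul_div_assoc]
  have h1 := key.eventually (gt_mem_nhds (show (0 : ℝ) < 1 by norm_num))
  obtain ⟨m₀, h2⟩ := eventually_atTop.1 h1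
  refine ⟨m₀, fun m hm => ?_⟩
  have h3 := h2 m hm
  rw [div_lt_one (by positivity)] at h3
  exact_mod_cast h3

theorem nums (c : ℝ) (hc : 0 < c) (j T B : ℕ) (p : Polynomial ℕ) :
    ∀ᶠ N : ℕ in atTop, ∃ k : ℕ, B < N ∧
      (c - 1 / ((j : ℝ) + 1)) * Real.logb 2 ((N + 1 : ℕ) : ℝ) + 4 ≤ k ∧
      (((T + (j + 1) * 2 ^ k : ℕ) : ℝ)) ≤ (N : ℝ) ^ c ∧
      2 ^ (2 * k + 2 * j + 2) * (1 + p.eval (N + 1) * 2 ^ (k + 1)) < 2 ^ N := by
  have hj0 : (0 : ℝ) ≤ (j : ℝ) := Nat.cast_nonneg j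
  have hδ : 0 < 1 / ((j : ℝ) + 1) := by positivity
  obtain ⟨c', hc'⟩ : ∃ c' : ℝ, c' = max (c - 1 / ((j : ℝ) + 1)) 0 := ⟨_, rfl⟩
  have hc'0 : 0 ≤ c' := by rw [hc']; exact le_max_right _ _
  have hc'1 : c - 1 / ((j : ℝ) + 1) ≤ c' := by rw [hc']; exact le_max_left _ _
  have hc'c : c' < c := by rw [hc']; exact max_lt (by linarith) hc
  obtain ⟨D, hD⟩ : ∃ D : ℕ, D = ⌈c⌉₊ := ⟨_, rfl⟩
  have hcD : c ≤ D := by rw [hD]; exact Nat.le_ceil c
  obtain ⟨m₀, hm₀⟩ := poly_lt (Polynomial.C 2 * (Polynomial.C (2 ^ (2 * j + 2)) *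
    (Polynomial.C 32 * Polynomial.X ^ D) ^ 2 *
      (1 + p * (Polynomial.C 2 * (Polynomial.C 32 * Polynomial.X ^ D)))))
  obtain ⟨K, hK⟩ : ∃ K : ℝ, K = T + 32 * ((j : ℝ) + 1) * (2 : ℝ) ^ c' := ⟨_, rfl⟩
  have t1 : Tendsto (fun N : ℕ => (N : ℝ) ^ (c - c')) atTop atTop :=
    (tendsto_rpow_atTop (by linarith)).comp tendsto_natCast_atTop_atTop
  filter_upwards [t1.eventually_ge_atTop K, eventually_ge_atTop 1, eventually_gt_atTop B,
    eventually_ge_atTop m₀] with N h1 h2 h3 h4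
  have hN1 : (1 : ℝ) ≤ (N : ℝ) := by exact_mod_cast h2
  have hN0 : (0 : ℝ) < (N : ℝ) := by linarith
  have hm1 : (1 : ℝ) ≤ ((N + 1 : ℕ) : ℝ) := by push_cast; linarith
  have hm0 : (0 : ℝ) < ((N + 1 : ℕ) : ℝ) := by linarith
  obtain ⟨y, hy⟩ : ∃ y : ℝ, y = Real.logb 2 ((N + 1 : ℕ) : ℝ) := ⟨_, rfl⟩
  have hy0 : 0 ≤ y := by rw [hy]; exact Real.logb_nonneg (by norm_num) hm1
  have hy2 : (2 : ℝ) ^ y = ((N + 1 : ℕ) : ℝ) := by
    rw [hy]; exact Real.rpow_logb (by norm_num) (by norm_num) hm0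
  obtain ⟨n, hn⟩ : ∃ n : ℕ, n = ⌈c' * y⌉₊ := ⟨_, rfl⟩
  have hn1 : c' * y ≤ n := by rw [hn]; exact Nat.le_ceil _
  have hn2 : (n : ℝ) < c' * y + 1 := by
    rw [hn]; exact Nat.ceil_lt_add_one (mul_nonneg hc'0 hy0)
  have h2k : (2 : ℝ) ^ (n + 4) ≤ 32 * ((N + 1 : ℕ) : ℝ) ^ c' := by
    have e1 : (2 : ℝ) ^ (n + 4) = (2 : ℝ) ^ ((n : ℝ) + 4) := by
      rw [← Real.rpow_natCast]
      push_cast
      rfl
    have e2 : 32 * ((N + 1 : ℕ) : ℝ) ^ c' = (2 : ℝ) ^ (c' * y + 5) := by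
      rw [Real.rpow_add (by norm_num), mul_comm c' y, Real.rpow_mul (by norm_num), hy2]
      norm_num
      ring
    rw [e1, e2]
    apply Real.rpow_le_rpow_of_exponent_le (by norm_num)
    linarith
  refine ⟨n + 4, h3, ?_, ?_, ?_⟩
  · rw [← hy]
    push_cast
    have := mul_le_mul_of_nonneg_right hc'1 hy0
    linarith
  · have e1 : ((N + 1 : ℕ) : ℝ) ^ c' ≤ (2 : ℝ) ^ c' * (N : ℝ) ^ c' := by
      rw [← Real.mul_rpow (by norm_num) hN0.le]
      apply Real.rpow_le_rpow hm0.le _ hc'0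
      push_cast
      linarith
    have e2 : 1 ≤ (N : ℝ) ^ c' := Real.one_le_rpow hN1 hc'0
    have e3 : (N : ℝ) ^ c = (N : ℝ) ^ (c - c') * (N : ℝ) ^ c' := by
      rw [← Real.rpow_add hN0]
      congr 1
      ring
    have e4 : K * (N : ℝ) ^ c' ≤ (N : ℝ) ^ c := by
      rw [e3]
      exact mul_le_mul_of_nonneg_right h1 (by linarith)
    have hT0 : (0 : ℝ) ≤ T := Nat.cast_nonneg T
    push_cast
    calc (T : ℝ) + ((j : ℝ) + 1) * 2 ^ (n + 4)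
        ≤ T * (N : ℝ) ^ c' + ((j : ℝ) + 1) * (32 * ((2 : ℝ) ^ c' * (N : ℝ) ^ c')) := by
          apply add_le_add
          · nlinarith
          · apply mul_le_mul_of_nonneg_left _ (by linarith)
            linarith
      _ = K * (N : ℝ) ^ c' := by rw [hK]; ring
      _ ≤ (N : ℝ) ^ c := e4
  · have h5 : 2 ^ (n + 4) ≤ 32 * (N + 1) ^ D := by
      have e1 : ((N + 1 : ℕ) : ℝ) ^ c' ≤ ((N + 1 : ℕ) : ℝ) ^ (D : ℝ) :=
        Real.rpow_le_rpow_of_exponent_le hm1 (by linarith)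
      rw [Real.rpow_natCast] at e1
      have e2 : (2 : ℝ) ^ (n + 4) ≤ 32 * ((N + 1 : ℕ) : ℝ) ^ D := by linarith
      exact_mod_cast e2
    have h6 := hm₀ (N + 1) (by omega)
    simp only [Polynomial.eval_add, Polynomial.eval_mul, Polynomial.eval_C, Polynomial.eval_pow,
      Polynomial.eval_X, Polynomial.eval_one] at h6
    have h7 : 2 ^ (2 * (n + 4) + 2 * j + 2) * (1 + p.eval (N + 1) * 2 ^ (n + 4 + 1)) ≤
        2 ^ (2 * j + 2) * (32 * (N + 1) ^ D) ^ 2 *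
          (1 + p.eval (N + 1) * (2 * (32 * (N + 1) ^ D))) := by
      have e1 : 2 ^ (2 * (n + 4) + 2 * j + 2) = 2 ^ (2 * j + 2) * (2 ^ (n + 4)) ^ 2 := by
        rw [← pow_mul, ← pow_add]
        congr 1
        ring
      have e2 : 2 ^ (n + 4 + 1) = 2 * 2 ^ (n + 4) := by rw [pow_succ]; ring
      rw [e1, e2]
      gcongr
    have h8 : 2 ^ (N + 1) = 2 * 2 ^ N := by rw [pow_succ]; ring
    rw [h8] at h6
    omega

end Pool.Agent.W503.LG
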