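import Pool.Agent.W912.LG.Defs
import Pool.Agent.W300.EC.Step
import Pool.Agent.W503.LG.Num

/-!
# Project LG: one stage of the construction
-/

set_option autoImplicit false

namespace Pool.Agent.W503.LG

open Pool.Agent.NPC Pool.Agent.H620R2.Gauge Pool.Agent.H622R2.Exp Pool.Agent.H622R2.Ckt
open Pool.Agent.W900.CH Pool.Agent.W912.EC Pool.Agent.W912.LG Pool.Agent.W300.EC
open Filter Finset

/-- The property `Phi` of the strings of length `k` depends on few strings of the oracle only. -/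
theorem phi_local (M₁ M₂ : Alg) (b1 b2 : Polynomial ℕ)
    (h1 : ∀ (A : Oracle) (x : List Bool) (n : ℕ),
      ∃ Q : Finset (List Bool), Q.card ≤ n ∧ (∀ q ∈ Q, q.length ≤ b1.eval (x.length + n)) ∧
        ∀ A' : Oracle, (∀ q ∈ Q, A' q = A q) → M₁.run A' x n [] = M₁.run A x n [])
    (h2 : ∀ (A : Oracle) (x : List Bool) (n : ℕ),
      ∃ Q : Finset (List Bool), Q.card ≤ n ∧ (∀ q ∈ Q, q.length ≤ b2.eval (x.length + n)) ∧
        ∀ A' : Oracle, (∀ q ∈ Q, A' q = A q) → M₂.run A' x n [] = M₂.run A x n [])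
    (A : Oracle) (m k : ℕ) (hkm : k ≤ m) : ∃ Q : Finset (List Bool),
      Q.card ≤ (1 + M₁.p.eval m + M₂.p.eval (3 * m + 1)) * 2 ^ (k + 1) ∧
      (∀ q ∈ Q, q.length ≤ b1.eval (m + M₁.p.eval m) +
        b2.eval (3 * m + 1 + M₂.p.eval (3 * m + 1))) ∧
      ∀ A' : Oracle, (∀ q ∈ Q, A' q = A q) → ∀ u : List Bool, u.length = k →
        (Phi M₁ M₂ m A' u ↔ Phi M₁ M₂ m A u) := by
  classical
  obtain ⟨Q1, hQ11, hQ12, hQ13⟩ := h1 A (List.replicate m true) (M₁.p.eval m)
  choose Q2 hQ21 hQ22 hQ23 using fun s : List Bool =>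
    h2 A (pairBits (List.replicate m true) s)
      (M₂.p.eval (pairBits (List.replicate m true) s).length)
  have hlen : ∀ s : List Bool, s.length ≤ k →
      (pairBits (List.replicate m true) s).length ≤ 3 * m + 1 := by
    intro s hs
    rw [length_pairBits, List.length_replicate]
    omega
  refine ⟨Q1 ∪ (range (k + 1)).biUnion (fun l => (Xs l).biUnion (fun s => Q2 s)), ?_, ?_, ?_⟩
  · have e1 : ((range (k + 1)).biUnion (fun l => (Xs l).biUnion (fun s => Q2 s))).card ≤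
        2 ^ (k + 1) * M₂.p.eval (3 * m + 1) := by
      refine card_biUnion_le.trans ?_
      have e2 : ∀ l ∈ range (k + 1), ((Xs l).biUnion (fun s => Q2 s)).card ≤
          2 ^ l * M₂.p.eval (3 * m + 1) := by
        intro l hl
        refine card_biUnion_le.trans ?_
        rw [← card_Xs l, ← smul_eq_mul, ← Finset.sum_const]
        refine sum_le_sum fun s hs => ?_
        refine (hQ21 s).trans (eval_mono _ (hlen s ?_))
        rw [mem_Xs.1 hs]
        exact Nat.lt_succ_iff.1 (mem_range.1 hl)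
      refine (sum_le_sum e2).trans ?_
      rw [← Finset.sum_mul]
      refine Nat.mul_le_mul_right _ ?_
      have e3 := Nat.geomSum_lt (m := 2) (n := k + 1) (s := range (k + 1)) (le_refl 2)
        (fun l hl => mem_range.1 hl)
      exact e3.le
    refine (card_union_le _ _).trans ?_
    have e4 : Q1.card ≤ M₁.p.eval m := hQ11
    have e5 : 1 ≤ 2 ^ (k + 1) := Nat.one_le_two_pow
    nlinarith [Nat.zero_le (M₁.p.eval m), Nat.zero_le (M₂.p.eval (3 * m + 1))]
  · intro q hq
    rcases mem_union.1 hq with hq | hq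
    · have e1 := hQ12 q hq
      rw [List.length_replicate] at e1
      exact e1.trans (Nat.le_add_right _ _)
    · obtain ⟨l, hl, hq⟩ := mem_biUnion.1 hq
      obtain ⟨s, hs, hq⟩ := mem_biUnion.1 hq
      have e0 : (pairBits (List.replicate m true) s).length ≤ 3 * m + 1 := by
        refine hlen s ?_
        rw [mem_Xs.1 hs]
        exact Nat.lt_succ_iff.1 (mem_range.1 hl)
      have e1 := hQ22 s q hq
      refine e1.trans (le_trans (eval_mono _ ?_) (Nat.le_add_left _ _))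
      exact Nat.add_le_add e0 (eval_mono _ e0)
  · intro A' hA' u hu
    have e1 : M₁.out A' (List.replicate m true) = M₁.out A (List.replicate m true) := by
      unfold Alg.out
      rw [List.length_replicate]
      exact hQ13 A' fun q hq => hA' q (mem_union_left _ hq)
    have e2 : ∀ s : List Bool, s.length ≤ k →
        M₂.out A' (pairBits (List.replicate m true) s) =
          M₂.out A (pairBits (List.replicate m true) s) := by
      intro s hs
      unfold Alg.out
      refine hQ23 s A' fun q hq => hA' q (mem_union_right _ ?_)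
      rw [mem_biUnion]
      refine ⟨s.length, mem_range.2 (Nat.lt_succ_of_le hs), ?_⟩
      rw [mem_biUnion]
      exact ⟨s, mem_Xs.2 rfl, hq⟩
    unfold Phi
    constructor
    · rintro ⟨d, hd1, hd2, s, z, hs, hz, huz⟩
      refine ⟨d, by rw [← e1]; exact hd1, hd2, s, z, hs, ?_, huz⟩
      rw [← e2 s (by omega)]
      exact hz
    · rintro ⟨d, hd1, hd2, s, z, hs, hz, huz⟩
      refine ⟨d, by rw [e1]; exact hd1, hd2, s, z, hs, ?_, huz⟩
      rw [e2 s (by omega)]
      exact hz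

theorem stage : S_STAGE := by
  classical
  intro M₁ M₂ g c hc0 hg j A B T
  choose b1 hb1 using fun e : ℕ => run_local (M₁ e)
  choose b2 hb2 using fun e : ℕ => run_local (M₂ e)
  obtain ⟨p, hp⟩ : ∃ p : Polynomial ℕ, p = ∑ e ∈ range (j + 1), (1 + (M₁ e).p +
    (M₂ e).p.comp (Polynomial.C 3 * Polynomial.X + 1)) := ⟨_, rfl⟩
  have hpe : ∀ e ≤ j, ∀ m : ℕ,
      1 + (M₁ e).p.eval m + (M₂ e).p.eval (3 * m + 1) ≤ p.eval m := by
    intro e he m
    have h1 : 1 + (M₁ e).p.eval m + (M₂ e).p.eval (3 * m + 1) =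
        (1 + (M₁ e).p + (M₂ e).p.comp (Polynomial.C 3 * Polynomial.X + 1)).eval m := by
      simp
    rw [h1, hp, Polynomial.eval_finsetSum]
    exact single_le_sum (f := fun e => (1 + (M₁ e).p +
      (M₂ e).p.comp (Polynomial.C 3 * Polynomial.X + 1)).eval m) (fun _ _ => Nat.zero_le _)
      (mem_range.2 (Nat.lt_succ_of_le he))
  obtain ⟨N, hNg, k, hNB, hk4, hT, hbig⟩ := (hg.and_eventually (nums c hc0 j T B p)).exists
  obtain ⟨m, hm⟩ : ∃ m : ℕ, m = N + 1 := ⟨_, rfl⟩
  rw [← hm] at hk4 hbig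
  have hN1 : 2 * k + 2 * j + 2 < N := by
    have h1 : 2 ^ (2 * k + 2 * j + 2) < 2 ^ N := by
      refine lt_of_le_of_lt ?_ hbig
      exact Nat.le_mul_of_pos_right _ (by omega)
    exact (Nat.pow_lt_pow_iff_right (by norm_num)).1 h1
  have hjm : j ≤ m := by omega
  have hkm : k ≤ m := by omega
  obtain ⟨P, hP⟩ : ∃ P : ℕ, P = N - (2 * k + 2 * j + 2) := ⟨_, rfl⟩
  have hPN : 2 * k + 2 * j + 2 + P = N := by omega
  have hpP : p.eval m * 2 ^ (k + 1) ≤ 2 ^ P := by
    have h1 : 2 ^ (2 * k + 2 * j + 2) * (1 + p.eval m * 2 ^ (k + 1)) <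
        2 ^ (2 * k + 2 * j + 2) * 2 ^ P := by
      rw [← pow_add, hPN]
      exact hbig
    have h2 := Nat.lt_of_mul_lt_mul_left h1
    omega
  obtain ⟨K, hK⟩ : ∃ K : ℕ, K = N - k - j - 1 := ⟨_, rfl⟩
  have hKN : k + K + j + 1 = N := by omega
  choose Q hQ1 hQ2 hQ3 using fun e : ℕ =>
    phi_local (M₁ e) (M₂ e) (b1 e) (b2 e) (hb1 e) (hb2 e) A m k hkm
  obtain ⟨w, hw, hwQ⟩ := exists_key j k K P (fun e _ => Q e) (by
    intro e he x hx
    refine (hQ1 e).trans ?_
    exact (Nat.mul_le_mul_right _ (hpe e he m)).trans hpP) (by omega)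
  obtain ⟨Acc, hAcc⟩ : ∃ Acc : ℕ → List Bool → Prop, Acc = fun e u =>
      Phi (M₁ e) (M₂ e) m A u := ⟨_, rfl⟩
  obtain ⟨A', hA'⟩ : ∃ A' : Oracle, A' = fun y =>
      if ∃ e x, e ≤ j ∧ x.length = k ∧ y = cds j e w x then
        decide (∃ e x, e ≤ j ∧ x.length = k ∧ y = cds j e w x ∧ Acc e x) else A y := ⟨_, rfl⟩
  have hA'1 : ∀ y, (¬ ∃ e x, e ≤ j ∧ x.length = k ∧ y = cds j e w x) → A' y = A y := by
    intro y hy
    rw [hA']
    exact if_neg hy
  have hA'2 : ∀ e ≤ j, ∀ x, x.length = k → (A' (cds j e w x) = true ↔ Acc e x) := by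
    intro e he x hx
    have h1 : ∃ e' x', e' ≤ j ∧ x'.length = k ∧ cds j e w x = cds j e' w x' :=
      ⟨e, x, he, hx, rfl⟩
    rw [hA']
    show (if ∃ e' x', e' ≤ j ∧ x'.length = k ∧ cds j e w x = cds j e' w x' then
        decide (∃ e' x', e' ≤ j ∧ x'.length = k ∧ cds j e w x = cds j e' w x' ∧ Acc e' x')
        else A (cds j e w x)) = true ↔ Acc e x
    rw [if_pos h1, decide_eq_true_iff]
    constructor
    · rintro ⟨e', x', he', hx', h2, h3⟩
      obtain ⟨h4, -, h5⟩ := cds_inj hx hx' hw hw h2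
      rw [h4, h5]
      exact h3
    · intro h2
      exact ⟨e, x, he, hx, rfl, h2⟩
  have hlen : ∀ e ≤ j, ∀ x : List Bool, x.length = k → (cds j e w x).length = N := by
    intro e he x hx
    rw [cds_len he hx hw, hKN]
  obtain ⟨W, hW⟩ : ∃ W : Finset (List Bool),
      W = (range (j + 1)).biUnion (fun e => (Xs k).image (fun x => cds j e w x)) := ⟨_, rfl⟩
  have hsubW : {y | A' y ≠ A y} ⊆ (W : Set (List Bool)) := by
    intro y hy
    by_contra hyW
    apply hy
    apply hA'1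
    rintro ⟨e, x, he, hx, rfl⟩
    apply hyW
    rw [hW, mem_coe, mem_biUnion]
    refine ⟨e, mem_range.2 (Nat.lt_succ_of_le he), ?_⟩
    rw [mem_image]
    exact ⟨x, mem_Xs.2 hx, rfl⟩
  have hWc : W.card ≤ (j + 1) * 2 ^ k := by
    have h1 : W.card ≤ ∑ _e ∈ range (j + 1), 2 ^ k := by
      rw [hW]
      refine card_biUnion_le.trans (sum_le_sum fun e _ => ?_)
      rw [← card_Xs k]
      exact card_image_le
    rwa [sum_const, card_range, smul_eq_mul] at h1
  obtain ⟨F, hF⟩ : ∃ F : ℕ → ℕ, F = fun e => (b1 e).eval (m + (M₁ e).p.eval m) +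
      (b2 e).eval (3 * m + 1 + (M₂ e).p.eval (3 * m + 1)) := ⟨_, rfl⟩
  obtain ⟨B', hB'⟩ : ∃ B' : ℕ, B' = N + ∑ e ∈ range (j + 1), F e := ⟨_, rfl⟩
  have hB'N : N ≤ B' := by rw [hB']; exact Nat.le_add_right _ _
  refine ⟨m, k, N, (j + 1) * 2 ^ k, B', w, A', hNB, hB'N, hjm, hm.ge, hkm, hk4, ?_,
    W.finite_toSet.subset hsubW, ?_, ?_, hlen, ?_⟩
  · intro y hy
    apply hA'1
    rintro ⟨e, x, he, hx, rfl⟩
    exact hy (hlen e he x hx)
  · refine (Set.ncard_le_ncard hsubW W.finite_toSet).trans ?_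
    rw [Set.ncard_coe_finset]
    exact hWc
  · intro m' hm'
    exact hT.trans (hNg m' hm').le
  · intro A'' hA'' e he x hx
    rw [hA'' _ (by rw [hlen e he x hx]; exact hB'N), hA'2 e he x hx, hAcc]
    refine (hQ3 e A'' ?_ x hx).symm
    intro y hy
    have h1 : y.length ≤ B' := by
      have h2 := hQ2 e y hy
      refine h2.trans ?_
      have h3 : F e ≤ ∑ e ∈ range (j + 1), F e :=
        single_le_sum (f := F) (fun _ _ => Nat.zero_le _) (mem_range.2 (Nat.lt_succ_of_le he))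
      rw [hB']
      refine le_trans ?_ (Nat.le_add_left _ _)
      rw [hF] at h3 ⊢
      exact h3
    rw [hA'' y h1]
    apply hA'1
    rintro ⟨e', x', he', hx', rfl⟩
    exact hwQ e he x hx e' he' x' hx' hy

end Pool.Agent.W503.LG
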